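import Pool.Agent.N733.TG.K
import Pool.Agent.Results.MP_3e6494_nt.AlmostAllPrimes

/-!
# Large central values in every coset for all primes near functions of the values of multiplicative functions

Let `f` be a positive multiplicative function of at most polynomial growth such that `f p ≤ M p` for the large primes `p`,
with different values at different large primes; for example Euler's function or the sum of the divisors. Let `2 / 3 < β ≤ 1`
and `c, ε > 0`. There is an `η > 0`, which does not depend on `f`, such that for all `α > 0`, `d ≥ 1` and `κ ≥ 0` with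
`d (1 - η) + κ < 1`, for all `m ≤ N` but `N / (log N)^U`, for EVERY prime `q` with `|q - α f(m)^d| ≤ f(m)^κ` every coset of every
subgroup with at least `c q ^ β` elements of the group of the Dirichlet characters modulo `q` contains a character with a large
central value. More generally `G (f m)` takes the place of `α f(m)^d`, where `G` is any function with steps bounded below by a
positive constant and growth at most `v^d`. The values of `f` are in general taken with very large multiplicities, and so this
does not follow from the size of the exceptional set of primes.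

Proof. Write `m = k w` where `k` is composed of the primes `≤ z = N^(1 / J)`, `J` about `log log N`. For most `m` one has
`k ≤ N^ρ`, and `w` is a product of at most `J` different primes. So `f(w)` is taken at most `(1 + τ)^J` times, `τ` its number of
divisors, which is at most `N^o(1)` on average, even in mean square: and the exceptional set has only `N^(1 - δ)` elements. Its
size is bounded by the starting theorem `AlmostAllPrimes` of this problem.
-/

set_option autoImplicit false

namespace Pool.Agent.Results.MP_3e6494_nt.MultiplicativeValues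

open Finset
open Pool.Agent.N733.TG (LM Expanding lm_totient lm_sigma keep_good_nat expanding_pow)

/-- every coset of every subgroup with at least `c q ^ β` elements of the group of the Dirichlet characters modulo `q` has a
member with a large central value (with the constant `√(3 β - 2) - ε`) -/
def LargeValues (β c ε : ℝ) (q : ℕ) : Prop :=
  ∀ _ : NeZero q, ∀ (H : Subgroup (DirichletCharacter ℂ q)) (χ₀ : DirichletCharacter ℂ q),
    c * (q : ℝ) ^ β ≤ (Nat.card H : ℝ) →
    ∃ ψ ∈ H, Real.exp ((Real.sqrt (3 * β - 2) - ε) *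
      Real.sqrt (Real.log q * Real.log (Real.log (Real.log q)) / Real.log (Real.log q))) ≤
        ‖DirichletCharacter.LFunction (χ₀ * ψ) (1 / 2)‖

/-- **Large central values in every coset for the primes near the values of multiplicative functions.** For all
`2 / 3 < β ≤ 1` and `c, ε > 0` there is an `η` with `0 < η ≤ 1` such that the following holds. Let `f` be multiplicative and
positive, of at most polynomial growth, with `f p ≤ M p` at the large primes, and injective there. Let `G` have steps
`≥ a > 0` and growth at most `v^d`. Let `κ ≥ 0` and `d (1 - η) + κ < 1`. For every `U` and all large `N`, for all `m ≤ N` but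
`N / (log N)^U`, for EVERY prime `q` with `|q - G (f m)| ≤ f(m)^κ` every coset `χ₀ H` of every subgroup `H` with at least
`c q ^ β` elements of the group of the Dirichlet characters modulo `q` contains a character `χ` with
`|L(χ, 1/2)| ≥ exp ((√(3 β - 2) - ε) √(log q logloglog q / loglog q))`. Euler's function and the sum of the divisors are
examples of such functions `f`, and `α v^d` with `α > 0`, `d ≥ 1` is an example of `G`. -/
theorem result :
    (∀ β : ℝ, 2 / 3 < β → β ≤ 1 → ∀ c : ℝ, 0 < c → ∀ ε : ℝ, 0 < ε → ∃ η : ℝ, 0 < η ∧ η ≤ 1 ∧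
      ∀ f : ℕ → ℕ, LM f → ∀ (G : ℕ → ℝ) (d : ℝ), Expanding G d → ∀ κ : ℝ, 0 ≤ κ → d * (1 - η) + κ < 1 →
      ∀ U : ℕ, ∃ N₀ : ℕ, ∀ N : ℕ, N₀ ≤ N →
      ({m : ℕ | 1 ≤ m ∧ m ≤ N ∧ ¬ ∀ q : ℕ, q.Prime → |(q : ℝ) - G (f m)| ≤ (f m : ℝ) ^ κ →
        LargeValues β c ε q}.ncard : ℝ) ≤ N / Real.log N ^ U) ∧
    (LM Nat.totient ∧ LM (fun m => ∑ d ∈ m.divisors, d)) ∧
    ∀ α d : ℝ, 0 < α → 1 ≤ d → Expanding (fun v => α * (v : ℝ) ^ d) d := by
  refine ⟨fun β hβ hβ1 c hc ε hε => ?_, ⟨lm_totient, lm_sigma⟩, fun α d hα hd => expanding_pow hα hd⟩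
  obtain ⟨η, hη, Q₀, hQ⟩ := AlmostAllPrimes.result β hβ hβ1 c hc ε hε
  refine ⟨min η 1, lt_min hη one_pos, min_le_right _ _, fun f hf G d hG κ hκ h1 U => ?_⟩
  obtain ⟨N₀, hN₀⟩ := keep_good_nat Nat.Prime (LargeValues β c ε) hf hG (s := 1 - min η 1) (κ := κ)
    (sub_nonneg.2 (min_le_right _ _)) hκ h1 (fun ε' hε' => by
      refine ⟨(Q₀ : ℝ) + 1, fun X hX => ?_⟩
      have hX1 : (1 : ℝ) ≤ X := by exact_mod_cast hX
      have hp1 : 1 ≤ (X : ℝ) ^ (1 - min η 1 + ε') := Real.one_le_rpow hX1 (by
        have := min_le_right η 1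
        linarith)
      have hsub : {t : ℕ | 1 ≤ t ∧ t ≤ X ∧ t.Prime ∧ ¬ LargeValues β c ε t} ⊆ Set.Icc 1 X :=
        fun t ht => ⟨ht.1, ht.2.1⟩
      rcases Nat.lt_or_ge X Q₀ with hlt | hge
      · have h3 := Set.ncard_le_ncard hsub (Set.finite_Icc 1 X)
        rw [Set.ncard_eq_toFinset_card' (Set.Icc 1 X)] at h3
        simp only [Set.toFinset_Icc, Nat.card_Icc, add_tsub_cancel_right] at h3
        have h4 : ({t : ℕ | 1 ≤ t ∧ t ≤ X ∧ t.Prime ∧ ¬ LargeValues β c ε t}.ncard : ℝ) ≤ Q₀ := by
          exact_mod_cast h3.trans hlt.le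
        calc _ ≤ (Q₀ : ℝ) := h4
          _ ≤ ((Q₀ : ℝ) + 1) * 1 := by linarith
          _ ≤ _ := mul_le_mul_of_nonneg_left hp1 (by positivity)
      · obtain ⟨Bad, hB1, hB2⟩ := hQ X hge
        have hsub2 : {t : ℕ | 1 ≤ t ∧ t ≤ X ∧ t.Prime ∧ ¬ LargeValues β c ε t} ⊆ (Bad : Set ℕ) := by
          rintro q ⟨_, h5, h3, h4⟩
          by_contra hcon
          exact h4 fun hne H χ₀ hH => @hB2 q hne h3 h5 hcon H χ₀ hH
        have h3 := Set.ncard_le_ncard hsub2 (Finset.finite_toSet _)
        rw [Set.ncard_coe_finset] at h3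
        calc _ ≤ (Bad.card : ℝ) := by exact_mod_cast h3
          _ ≤ (X : ℝ) ^ (1 - η) := hB1
          _ ≤ (X : ℝ) ^ (1 - min η 1 + ε') := Real.rpow_le_rpow_of_exponent_le hX1 (by
              have := min_le_left η 1
              linarith)
          _ = 1 * (X : ℝ) ^ (1 - min η 1 + ε') := (one_mul _).symm
          _ ≤ _ := mul_le_mul_of_nonneg_right (by
              have : (0 : ℝ) ≤ Q₀ := Nat.cast_nonneg _
              linarith) (by positivity)) U
  refine ⟨N₀, fun N hN => le_trans (le_of_eq ?_) (hN₀ N hN)⟩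
  congr 2
  ext m
  simp only [Set.mem_ofPred_eq]
  have : (∀ q : ℕ, q.Prime → |(q : ℝ) - G (f m)| ≤ (f m : ℝ) ^ κ → LargeValues β c ε q) ↔
      ∀ q : ℕ, 1 ≤ q → q.Prime → |(q : ℝ) - G (f m)| ≤ (f m : ℝ) ^ κ → LargeValues β c ε q :=
    ⟨fun h q _ => h q, fun h q hq => h q hq.one_lt.le hq⟩
  rw [this]

end Pool.Agent.Results.MP_3e6494_nt.MultiplicativeValues
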