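import Pool.Agent.N671.DA.Win
import Pool.Agent.Results.MP_3e6494_nt.AlmostAllPrimes

/-!
# Large central values in every coset for all primes near functions of the denominators of good approximations

Let `α_1, …, α_m` be real numbers. We consider the natural numbers `n` with `‖n α_j - γ_j‖ ≤ b n^(-τ)` for all `j`, `‖x‖` the
distance to the nearest integer; for `γ = 0`, `b = 1`, `τ = 1 / m` these include the denominators of all best simultaneous
approximations (the denominators of the convergents for `m = 1`). They form a very sparse sequence, with gaps growing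
exponentially for almost all `α` if `τ = 1 / m`. Let `2 / 3 < β ≤ 1` and `c, ε > 0`. There is an `η > 0` such that the following
holds: let `G` be a function with steps bounded below by a positive constant and growth at most `v^d`, for example `a v^d`. For
all `α` in `ℝ^m` outside a set of Hausdorff dimension at most `(m + d (1 - η) + κ) / (1 + τ)`, and all `b`, for all but finitely
many such `n`, for EVERY prime `q` with `|q - G n| ≤ n^κ` every coset of every subgroup with at least `c q ^ β` elements of the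
group of the Dirichlet characters modulo `q` contains a character with a large central value. For `τ = 1 / m` the bound is less
than `m` if `d (1 - η) + κ < 1`; and so the statement holds for almost all `α`.

Proof. The `n` such that some exceptional prime is near `G n` form a set with `O(X^(d (1 - η) + κ + ε))` elements up to `X`, by
the starting theorem `AlmostAllPrimes` of this problem; and the `α` with `‖n α_j - γ_j‖ ≤ b n^(-τ)` for all `j` and infinitely
many `n` of such a set are covered by few small cubes.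
-/

set_option autoImplicit false

namespace Pool.Agent.Results.MP_3e6494_nt.SimultaneousApproximations

open Finset
open Pool.Agent.N671.DA (Solves Expanding expanding_pow approx_good_nat)

/-- every coset of every subgroup with at least `c q ^ β` elements of the group of the Dirichlet characters modulo `q` has a
member with a large central value (with the constant `√(3 β - 2) - ε`) -/
def LargeValues (β c ε : ℝ) (q : ℕ) : Prop :=
  ∀ _ : NeZero q, ∀ (H : Subgroup (DirichletCharacter ℂ q)) (χ₀ : DirichletCharacter ℂ q),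
    c * (q : ℝ) ^ β ≤ (Nat.card H : ℝ) →
    ∃ ψ ∈ H, Real.exp ((Real.sqrt (3 * β - 2) - ε) *
      Real.sqrt (Real.log q * Real.log (Real.log (Real.log q)) / Real.log (Real.log q))) ≤
        ‖DirichletCharacter.LFunction (χ₀ * ψ) (1 / 2)‖

/-- **Large central values in every coset for the primes near the denominators of good approximations.** For all
`2 / 3 < β ≤ 1` and `c, ε > 0` there is an `η` with `0 < η ≤ 1` such that the following holds. Let `G` have steps `≥ a > 0` and
growth at most `v^d`. Let `0 ≤ κ ≤ 1`, `γ` in `ℝ^m` and `τ > 0`. For all `α` in `ℝ^m` outside a set of Hausdorff dimension at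
most `(m + d (1 - η) + κ) / (1 + τ)` and all `b`, for all large `n` with `‖n α_j - γ_j‖ ≤ b n^(-τ)` for all `j`, for EVERY prime
`q` with `|q - G n| ≤ n^κ` every coset `χ₀ H` of every subgroup `H` with at least `c q ^ β` elements of the group of the
Dirichlet characters modulo `q` contains a character `χ` with
`|L(χ, 1/2)| ≥ exp ((√(3 β - 2) - ε) √(log q logloglog q / loglog q))`. The functions `a v^d` with `a > 0`, `d ≥ 1` are examples
of `G`. -/
theorem result :
    (∀ β : ℝ, 2 / 3 < β → β ≤ 1 → ∀ c : ℝ, 0 < c → ∀ ε : ℝ, 0 < ε → ∃ η : ℝ, 0 < η ∧ η ≤ 1 ∧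
      ∀ (G : ℕ → ℝ) (d : ℝ), Expanding G d → ∀ κ : ℝ, 0 ≤ κ → κ ≤ 1 →
      ∀ (m : ℕ) (γ : Fin m → ℝ) (τ : ℝ), 0 < τ →
      ∃ E : Set (Fin m → ℝ), dimH E ≤ ENNReal.ofReal ((m + (d * (1 - η) + κ)) / (1 + τ)) ∧
        ∀ α, α ∉ E → ∀ b : ℝ, ∃ N : ℕ, ∀ n : ℕ, N ≤ n → Solves α γ n (b * (n : ℝ) ^ (-τ)) →
          ∀ q : ℕ, q.Prime → |(q : ℝ) - G n| ≤ (n : ℝ) ^ κ → LargeValues β c ε q) ∧
    ∀ a d : ℝ, 0 < a → 1 ≤ d → Expanding (fun v => a * (v : ℝ) ^ d) d := by
  refine ⟨fun β hβ hβ1 c hc ε hε => ?_, fun a d ha hd => expanding_pow ha hd⟩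
  obtain ⟨η, hη, Q₀, hQ⟩ := AlmostAllPrimes.result β hβ hβ1 c hc ε hε
  refine ⟨min η 1, lt_min hη one_pos, min_le_right _ _, fun G d hG κ hκ hκ1 m γ τ hτ => ?_⟩
  obtain ⟨E, hE, hE2⟩ := approx_good_nat Nat.Prime (LargeValues β c ε) hG (s := 1 - min η 1) (κ := κ)
    (sub_nonneg.2 (min_le_right _ _)) hκ hκ1 (fun ε' hε' => by
      refine ⟨(Q₀ : ℝ) + 1, fun X hX => ?_⟩
      have hX1 : (1 : ℝ) ≤ X := by exact_mod_cast hX
      have hp1 : 1 ≤ (X : ℝ) ^ (1 - min η 1 + ε') := Real.one_le_rpow hX1 (by
        have := min_le_right η 1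
        linarith)
      have hsub : {t : ℕ | 1 ≤ t ∧ t ≤ X ∧ t.Prime ∧ ¬ LargeValues β c ε t} ⊆ Set.Icc 1 X :=
        fun t ht => ⟨ht.1, ht.2.1⟩
      rcases Nat.lt_or_ge X Q₀ with hlt | hge
      · have h3 := Set.ncard_le_ncard hsub (Set.finite_Icc 1 X)
        rw [Set.ncard_eq_toFinset_card' (Set.Icc 1 X)] at h3
        simp only [Set.toFinset_Icc, Nat.card_Icc, add_tsub_cancel_right] at h3
        have h4 : ({t : ℕ | 1 ≤ t ∧ t ≤ X ∧ t.Prime ∧ ¬ LargeValues β c ε t}.ncard : ℝ) ≤ Q₀ := by
          exact_mod_cast h3.trans hlt.le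
        calc _ ≤ (Q₀ : ℝ) := h4
          _ ≤ ((Q₀ : ℝ) + 1) * 1 := by linarith
          _ ≤ _ := mul_le_mul_of_nonneg_left hp1 (by positivity)
      · obtain ⟨Bad, hB1, hB2⟩ := hQ X hge
        have hsub2 : {t : ℕ | 1 ≤ t ∧ t ≤ X ∧ t.Prime ∧ ¬ LargeValues β c ε t} ⊆ (Bad : Set ℕ) := by
          rintro q ⟨_, h5, h3, h4⟩
          by_contra hcon
          exact h4 fun hne H χ₀ hH => @hB2 q hne h3 h5 hcon H χ₀ hH
        have h3 := Set.ncard_le_ncard hsub2 (Finset.finite_toSet _)
        rw [Set.ncard_coe_finset] at h3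
        calc _ ≤ (Bad.card : ℝ) := by exact_mod_cast h3
          _ ≤ (X : ℝ) ^ (1 - η) := hB1
          _ ≤ (X : ℝ) ^ (1 - min η 1 + ε') := Real.rpow_le_rpow_of_exponent_le hX1 (by
              have := min_le_left η 1
              linarith)
          _ = 1 * (X : ℝ) ^ (1 - min η 1 + ε') := (one_mul _).symm
          _ ≤ _ := mul_le_mul_of_nonneg_right (by
              have : (0 : ℝ) ≤ Q₀ := Nat.cast_nonneg _
              linarith) (by positivity)) γ hτ
  refine ⟨E, hE, fun α hα b => ?_⟩
  obtain ⟨N, hN⟩ := hE2 α hα b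
  exact ⟨N, fun n hn h1 q hq h2 => hN n hn h1 q hq.one_lt.le hq h2⟩

end Pool.Agent.Results.MP_3e6494_nt.SimultaneousApproximations
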